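import Pool.Agent.H93.EG.Targets

/-!
# Row A_AS of eg_modules: Green's identity near inner points of sides
(the same proof as the row GS of en_modules by helper1)
-/

set_option autoImplicit false

namespace Pool.Agent.H54.EG

open MeasureTheory Set Metric Filter Topology Pool.Agent.H93.EG
open Pool.Agent.H93.BL hiding T_B1 T_B2 T_B3 T_SB T_SC
open Pool.Agent.H93.EN (av md rf chi gchi Bd Ml Nl Agr sg VV Chart LS Phi FE T_SD0 T_GRH T_U1 T_U5)

theorem as_sg_zero {ι : Type} (P : Polygon ι) (j : ι) {x : ℂ}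
    (hx : x ∈ openSegment ℝ (P.p j) (P.q j)) : sg P j x = 0 := by
  obtain ⟨s, -, -, rfl⟩ := (P.mem_openSegment_iff j x).1 hx
  unfold sg
  rw [add_sub_cancel_left, cr_smul_right, cr_self, mul_zero]

theorem as_open {ι : Type} (P : Polygon ι) (j : ι) : IsOpen {x : ℂ | 0 < sg P j x} := by
  refine isOpen_lt continuous_const ?_
  unfold sg
  exact (continuous_cr_right (P.u j)).comp (continuous_id.sub continuous_const)

/-- integrand of the left side -/
noncomputable def lh (N : ℂ → ℂ → ℂ) (k : ℤ) (η : ℂ → ℝ) (x : ℂ) : ℝ :=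
  η x * ((starRingEnd ℂ) (ux N k x) * uy N k x).im

/-- integrand of the right side -/
noncomputable def rh (G : ℂ → ℂ → ℝ) (N : ℂ → ℂ → ℂ) (k : ℤ) (η : ℂ → ℝ) (x : ℂ) : ℝ :=
  ((starRingEnd ℂ) (um G k x) *
      ((fderiv ℝ η x 1 : ℂ) * uy N k x - (fderiv ℝ η x Complex.I : ℂ) * ux N k x)).im

theorem as_half (h2 : T_GRH) (h3 : T_U1) (h6 : T_U5) {ι : Type} (P : Polygon ι) {δ : ℝ}
    (hδ : 0 < δ) {G : ℂ → ℂ → ℝ} {N : ℂ → ℂ → ℂ} (hS : Sm P δ G N) (j : ι) {x₀ : ℂ}
    (hx₀ : x₀ ∈ openSegment ℝ (P.p j) (P.q j)) :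
    ∃ s > (0 : ℝ), ∀ η : ℂ → ℝ, ContDiff ℝ 2 η → tsupport η ⊆ ball x₀ s → ∀ k : ℤ,
      IntegrableOn (lh N k η) {x | 0 < sg P j x} ∧
      IntegrableOn (rh G N k η) {x | 0 < sg P j x} ∧
      ∫ x in {x | 0 < sg P j x}, lh N k η x =
        -(1 / 2) * ∫ x in {x | 0 < sg P j x}, rh G N k η x := by
  obtain ⟨s, hs, Φ, hB, hsym, hside⟩ := hS.side j x₀ hx₀
  refine ⟨s, hs, ?_⟩
  intro η hη hsupp k
  have hv := h3 Φ hB δ hδ k
  have hcomp : HasCompactSupport η := by
    refine (isCompact_closedBall x₀ s).of_isClosed_subset (isClosed_tsupport η) ?_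
    exact hsupp.trans ball_subset_closedBall
  -- the functions of the extension
  set v : ℂ → ℂ := fun x => md (Ml Φ δ x) k with hvdef
  obtain ⟨hv1, hvx, hvy, -, -⟩ := hv
  let F1 : ℂ → ℝ := fun x => η x * ((starRingEnd ℂ) (fderiv ℝ v x 1) * fderiv ℝ v x Complex.I).im
  let F2 : ℂ → ℝ := fun x => ((starRingEnd ℂ) (v x) *
    ((fderiv ℝ η x 1 : ℂ) * fderiv ℝ v x Complex.I -
      (fderiv ℝ η x Complex.I : ℂ) * fderiv ℝ v x 1)).im
  have hη0 : ∀ x, x ∉ tsupport η → η x = 0 := fun x hx => image_eq_zero_of_notMem_tsupport hx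
  have hdη0 : ∀ x, x ∉ tsupport η → fderiv ℝ η x = 0 := fun x hx => by
    have := support_fderiv_subset ℝ (f := η)
    by_contra h
    exact hx (this (Function.mem_support.2 h))
  have hη1 : Continuous (fderiv ℝ η) := hη.continuous_fderiv (by norm_num)
  have hv1' : Continuous (fderiv ℝ v) := hv1.continuous_fderiv (by norm_num)
  have hvx1 : Continuous fun x => fderiv ℝ v x 1 := hv1'.clm_apply continuous_const
  have hvy1 : Continuous fun x => fderiv ℝ v x Complex.I := hv1'.clm_apply continuous_const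
  have hF1c : Continuous F1 :=
    hη.continuous.mul (Complex.continuous_im.comp
      ((Complex.continuous_conj.comp hvx1).mul hvy1))
  have hF2c : Continuous F2 := by
    have e1 : Continuous fun x => ((fderiv ℝ η x 1 : ℝ) : ℂ) :=
      Complex.continuous_ofReal.comp (hη1.clm_apply continuous_const)
    have e2 : Continuous fun x => ((fderiv ℝ η x Complex.I : ℝ) : ℂ) :=
      Complex.continuous_ofReal.comp (hη1.clm_apply continuous_const)
    have e3 : Continuous fun x => (starRingEnd ℂ) (v x) :=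
      Complex.continuous_conj.comp hv1.continuous
    exact Complex.continuous_im.comp (e3.mul ((e1.mul hvy1).sub (e2.mul hvx1)))
  have hF1s : HasCompactSupport F1 := hcomp.mul_right
  have hF2s : HasCompactSupport F2 := by
    refine HasCompactSupport.intro' hcomp (isClosed_tsupport η) ?_
    intro x hx
    change ((starRingEnd ℂ) (v x) *
      ((fderiv ℝ η x 1 : ℂ) * fderiv ℝ v x Complex.I -
      (fderiv ℝ η x Complex.I : ℂ) * fderiv ℝ v x 1)).im = 0
    rw [hdη0 x hx]
    simp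
  have hF1i : Integrable F1 := hF1c.integrable_of_hasCompactSupport hF1s
  have hF2i : Integrable F2 := hF2c.integrable_of_hasCompactSupport hF2s
  have hmeas : MeasurableSet {x : ℂ | 0 < sg P j x} := (as_open P j).measurableSet
  -- agreement
  have hag : ∀ x ∈ ball x₀ s, 0 < sg P j x → um G k x = v x ∧
      ux N k x = fderiv ℝ v x 1 ∧ uy N k x = fderiv ℝ v x Complex.I := by
    intro x hx hsg
    obtain ⟨-, h1, h7⟩ := hside x hx hsg
    refine ⟨?_, ?_, ?_⟩
    · unfold um
      rw [h1]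
    · unfold ux
      rw [h7]
      exact (hvx x).symm
    · unfold uy
      rw [h7]
      exact (hvy x).symm
  have hf1 : ∀ x ∈ {x : ℂ | 0 < sg P j x}, lh N k η x = F1 x := by
    intro x hx
    change η x * ((starRingEnd ℂ) (ux N k x) * uy N k x).im =
      η x * ((starRingEnd ℂ) (fderiv ℝ v x 1) * fderiv ℝ v x Complex.I).im
    by_cases hxt : x ∈ tsupport η
    · obtain ⟨-, h7, h8⟩ := hag x (hsupp hxt) hx
      rw [h7, h8]
    · rw [hη0 x hxt, zero_mul, zero_mul]
  have hf2 : ∀ x ∈ {x : ℂ | 0 < sg P j x}, rh G N k η x = F2 x := by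
    intro x hx
    unfold rh
    change _ = ((starRingEnd ℂ) (v x) *
      ((fderiv ℝ η x 1 : ℂ) * fderiv ℝ v x Complex.I -
      (fderiv ℝ η x Complex.I : ℂ) * fderiv ℝ v x 1)).im
    by_cases hxt : x ∈ tsupport η
    · obtain ⟨h8, h7, h9⟩ := hag x (hsupp hxt) hx
      rw [h8, h7, h9]
    · rw [hdη0 x hxt]
      simp
  refine ⟨?_, ?_, ?_⟩
  · exact hF1i.integrableOn.congr_fun (fun x hx => (hf1 x hx).symm) hmeas
  · exact hF2i.integrableOn.congr_fun (fun x hx => (hf2 x hx).symm) hmeas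
  · rw [setIntegral_congr_fun hmeas hf1, setIntegral_congr_fun hmeas hf2]
    refine h2 v η (P.u j) (P.p j) hv1 hη hcomp (P.norm_u j) ?_
    intro x hx h0
    have hd : dist x x₀ + δ < δ + s := by
      have := mem_ball.1 (hsupp hx)
      linarith
    exact (h6 ι P j Φ x₀ _ hB hsym (as_sg_zero P j hx₀) δ hδ x hd h0 k).2

theorem as_ind {f : ℂ → ℝ} {S T B : Set ℂ} (hS : MeasurableSet S) (hT : MeasurableSet T)
    (hf : ∀ x, x ∉ B → f x = 0) (h : ∀ x ∈ B, x ∈ S ↔ x ∈ T) :
    ∫ x in S, f x = ∫ x in T, f x := by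
  rw [← integral_indicator hS, ← integral_indicator hT]
  congr 1
  funext x
  by_cases hx : x ∈ B
  · by_cases hxS : x ∈ S
    · rw [indicator_of_mem hxS, indicator_of_mem ((h x hx).1 hxS)]
    · rw [indicator_of_notMem hxS, indicator_of_notMem (fun h' => hxS ((h x hx).2 h'))]
  · have h0 := hf x hx
    by_cases hxS : x ∈ S <;> by_cases hxT : x ∈ T <;> simp [hxS, hxT, h0]

theorem asT (h1 : T_SD0) (h2 : T_GRH) (h3 : T_U1) (h4 : T_U5) : T_AS := by
  intro ι _ P δ G N hδ hS j x₀ hx₀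
  obtain ⟨s₁, hs₁, H1⟩ := as_half h2 h3 h4 P hδ hS j hx₀
  obtain ⟨s₀, hs₀, hstr⟩ := h1 ι P j x₀ hx₀
  have hΩm : MeasurableSet P.Ω := P.isOpen.measurableSet
  have hmeas : ∀ i, MeasurableSet {x : ℂ | 0 < sg P i x} := fun i =>
    (as_open P i).measurableSet
  have hzero1 : ∀ (k : ℤ) (η : ℂ → ℝ) (B : Set ℂ), tsupport η ⊆ B → ∀ x, x ∉ B →
      lh N k η x = 0 := by
    intro k η B hB x hx
    unfold lh
    rw [image_eq_zero_of_notMem_tsupport (fun h => hx (hB h)), zero_mul]
  have hzero2 : ∀ (k : ℤ) (η : ℂ → ℝ) (B : Set ℂ), tsupport η ⊆ B → ∀ x, x ∉ B →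
      rh G N k η x = 0 := by
    intro k η B hB x hx
    have hd : fderiv ℝ η x = 0 := by
      have := support_fderiv_subset ℝ (f := η)
      by_contra h
      exact hx (hB (this (Function.mem_support.2 h)))
    unfold rh
    rw [hd]
    simp
  rcases hstr with hstr | ⟨j', hj1, hj2, hsg, hstr⟩
  · refine ⟨min s₁ s₀, lt_min hs₁ hs₀, ?_⟩
    intro η hη hsupp k
    obtain ⟨-, -, hI⟩ := H1 η hη (hsupp.trans (ball_subset_ball (min_le_left _ _))) k
    have hb : tsupport η ⊆ ball x₀ s₀ := hsupp.trans (ball_subset_ball (min_le_right _ _))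
    have e1 := as_ind hΩm (hmeas j) (hzero1 k η _ hb) (fun x hx => hstr x hx)
    have e2 := as_ind hΩm (hmeas j) (hzero2 k η _ hb) (fun x hx => hstr x hx)
    change ∫ x in P.Ω, lh N k η x = -(1 / 2) * ∫ x in P.Ω, rh G N k η x
    rw [e1, e2]
    exact hI
  · have hx' : x₀ ∈ openSegment ℝ (P.p j') (P.q j') := by
      rw [P.openSegment_reversed hj1 hj2]
      exact hx₀
    obtain ⟨s₂, hs₂, H2⟩ := as_half h2 h3 h4 P hδ hS j' hx'
    refine ⟨min (min s₁ s₂) s₀, lt_min (lt_min hs₁ hs₂) hs₀, ?_⟩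
    intro η hη hsupp k
    obtain ⟨a1, a2, a3⟩ := H1 η hη (hsupp.trans (ball_subset_ball
      ((min_le_left _ _).trans (min_le_left _ _)))) k
    obtain ⟨b1, b2, b3⟩ := H2 η hη (hsupp.trans (ball_subset_ball
      ((min_le_left _ _).trans (min_le_right _ _)))) k
    have hb : tsupport η ⊆ ball x₀ s₀ := hsupp.trans (ball_subset_ball (min_le_right _ _))
    have hU : ∀ x ∈ ball x₀ s₀, x ∈ P.Ω ↔
        x ∈ {x : ℂ | 0 < sg P j x} ∪ {x : ℂ | 0 < sg P j' x} := by
      intro x hx
      rw [hstr x hx]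
      change _ ↔ 0 < sg P j x ∨ 0 < sg P j' x
      rw [hsg]
      constructor
      · intro h
        rcases lt_or_gt_of_ne h with h' | h'
        · right; linarith
        · left; exact h'
      · rintro (h | h)
        · exact h.ne'
        · intro h'
          rw [h'] at h
          simp at h
    have hdis : Disjoint {x : ℂ | 0 < sg P j x} {x : ℂ | 0 < sg P j' x} := by
      rw [Set.disjoint_left]
      intro x hx hx2
      have h7 : 0 < sg P j x := hx
      have h8 : 0 < sg P j' x := hx2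
      rw [hsg] at h8
      linarith
    have e1 := as_ind hΩm ((hmeas j).union (hmeas j')) (hzero1 k η _ hb) hU
    have e2 := as_ind hΩm ((hmeas j).union (hmeas j')) (hzero2 k η _ hb) hU
    change ∫ x in P.Ω, lh N k η x = -(1 / 2) * ∫ x in P.Ω, rh G N k η x
    rw [e1, e2, setIntegral_union hdis (hmeas j') a1 b1, setIntegral_union hdis (hmeas j') a2 b2,
      a3, b3]
    ring

end Pool.Agent.H54.EG
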